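import Mathlib

/-! A builder for finite CW complexes. -/

set_option autoImplicit false

open Set Filter Topology Metric

namespace Pool.Agent.W749.SC

/-- Data for a finite CW complex: all characteristic maps, on the cubes. -/
structure Dat (X : Type) [TopologicalSpace X] where
  /-- cells -/
  cell : ℕ → Type
  /-- characteristic maps -/
  F : ∀ n, cell n → (Fin n → ℝ) → X
  top : ∀ᶠ n in atTop, IsEmpty (cell n)
  fin : ∀ n, Finite (cell n)
  cont : ∀ n i, ContinuousOn (F n i) (closedBall 0 1)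
  inj : ∀ n i m j x y, x ∈ ball (0 : Fin n → ℝ) 1 → y ∈ ball (0 : Fin m → ℝ) 1 →
    F n i x = F m j y → (⟨⟨n, i⟩, x⟩ : Σ p : (Σ n, cell n), (Fin p.1 → ℝ)) = ⟨⟨m, j⟩, y⟩
  bd : ∀ n i, ∀ x ∈ sphere (0 : Fin n → ℝ) 1, ∃ m, m < n ∧ ∃ (j : cell m) (y : Fin m → ℝ),
    y ∈ ball (0 : Fin m → ℝ) 1 ∧ F n i x = F m j y
  surj : ∀ x, ∃ n i y, y ∈ ball (0 : Fin n → ℝ) 1 ∧ F n i y = x

variable {X : Type} [TopologicalSpace X]

theorem Dat.injOn (D : Dat X) (n : ℕ) (i : D.cell n) : InjOn (D.F n i) (ball 0 1) := by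
  intro x hx y hy h
  have := D.inj n i n i x y hx hy h
  simpa using this

/-- the characteristic map -/
noncomputable def Dat.map (D : Dat X) (n : ℕ) (i : D.cell n) : PartialEquiv (Fin n → ℝ) X :=
  (D.injOn n i).toPartialEquiv (D.F n i) (ball 0 1)

theorem Dat.map_apply (D : Dat X) (n : ℕ) (i : D.cell n) (x : Fin n → ℝ) :
    D.map n i x = D.F n i x := rfl

theorem Dat.map_coe (D : Dat X) (n : ℕ) (i : D.cell n) : ⇑(D.map n i) = D.F n i := rfl

theorem Dat.map_source (D : Dat X) (n : ℕ) (i : D.cell n) : (D.map n i).source = ball 0 1 := rfl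

theorem Dat.map_target (D : Dat X) (n : ℕ) (i : D.cell n) :
    (D.map n i).target = D.F n i '' ball 0 1 := rfl

theorem Dat.sphere_ball (D : Dat X) (n : ℕ) (i : D.cell n) {x y : Fin n → ℝ}
    (hx : x ∈ closedBall (0 : Fin n → ℝ) 1) (hy : y ∈ ball (0 : Fin n → ℝ) 1)
    (h : D.F n i x = D.F n i y) : x ∈ ball (0 : Fin n → ℝ) 1 := by
  by_contra hcon
  have hs : x ∈ sphere (0 : Fin n → ℝ) 1 := by
    rw [mem_sphere]
    rw [mem_closedBall] at hx
    rw [mem_ball, not_lt] at hcon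
    exact le_antisymm hx hcon
  obtain ⟨m, hm, j, z, hz, he⟩ := D.bd n i x hs
  have h2 := D.inj n i m j y z hy hz (h.symm.trans he)
  have h3 := congrArg (fun q : (Σ p : (Σ n, D.cell n), (Fin p.1 → ℝ)) => q.1.1) h2
  simp only at h3
  omega

theorem Dat.symm_cont [T2Space X] (D : Dat X) (n : ℕ) (i : D.cell n) :
    ContinuousOn (D.map n i).symm (D.map n i).target := by
  rw [continuousOn_iff_isClosed]
  intro t ht
  refine ⟨D.F n i '' (closedBall 0 1 ∩ t), ?_, ?_⟩
  · apply IsCompact.isClosed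
    exact ((isCompact_closedBall (0 : Fin n → ℝ) 1).inter_right ht).image_of_continuousOn
      ((D.cont n i).mono inter_subset_left)
  · ext x
    constructor
    · rintro ⟨h1, h2⟩
      refine ⟨⟨(D.map n i).symm x, ⟨?_, h1⟩, (D.map n i).right_inv h2⟩, h2⟩
      exact ball_subset_closedBall ((D.map n i).map_target h2)
    · rintro ⟨⟨y, ⟨hy, hyt⟩, rfl⟩, h2⟩
      refine ⟨?_, h2⟩
      obtain ⟨z, hz, hzy⟩ := h2
      have hyb := D.sphere_ball n i hy hz hzy.symm
      have : (D.map n i).symm (D.F n i y) = y := (D.map n i).left_inv hyb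
      show (D.map n i).symm (D.F n i y) ∈ t
      rw [this]
      exact hyt

/-- the CW complex -/
@[reducible] noncomputable def Dat.cw [T2Space X] (D : Dat X) :
    CWComplex (Set.univ : Set X) :=
  CWComplex.mkFinite (Set.univ : Set X) D.cell D.map D.top D.fin
    (fun n i => D.map_source n i) (fun n i => D.cont n i) (fun n i => D.symm_cont n i)
    (by
      rintro ⟨n, i⟩ _ ⟨m, j⟩ _ hne
      rw [Function.onFun, Set.disjoint_left]
      rintro _ ⟨x, hx, rfl⟩ ⟨y, hy, he⟩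
      apply hne
      have := D.inj n i m j x y hx hy he.symm
      exact congrArg (fun q : (Σ p : (Σ n, D.cell n), (Fin p.1 → ℝ)) => q.1) this)
    (by
      intro n i x hx
      obtain ⟨m, hm, j, y, hy, he⟩ := D.bd n i x hx
      simp only [mem_iUnion]
      exact ⟨m, hm, j, y, ball_subset_closedBall hy, he.symm⟩)
    (by
      rw [eq_univ_iff_forall]
      intro x
      obtain ⟨n, i, y, hy, he⟩ := D.surj x
      simp only [mem_iUnion]
      exact ⟨n, i, y, ball_subset_closedBall hy, he⟩)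

theorem Dat.cw_cell [T2Space X] (D : Dat X) (n : ℕ) : D.cw.cell n = D.cell n := rfl

theorem Dat.cw_map [T2Space X] (D : Dat X) (n : ℕ) (i : D.cell n) :
    D.cw.map n i = D.map n i := rfl

theorem Dat.finite [T2Space X] (D : Dat X) :
    @RelCWComplex.Finite X _ (Set.univ : Set X) ∅ (@CWComplex.instRelCWComplex X _ _ D.cw) :=
  CWComplex.finite_mkFinite _ _ _ _ _ _ _ _ _ _ _

/-! ## facts about a CW complex -/

section Facts

variable {E : Type} [TopologicalSpace E] [T2Space E] (cw : CWComplex (Set.univ : Set E))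

omit [T2Space E] in
theorem ex_cell (x : E) : ∃ (n : ℕ) (i : cw.cell n) (y : Fin n → ℝ),
    y ∈ ball (0 : Fin n → ℝ) 1 ∧ cw.map n i y = x := by
  let _ := cw
  have h := CWComplex.iUnion_openCell_eq_complex (C := (Set.univ : Set E))
  have hx : x ∈ (⋃ (n : ℕ) (j : RelCWComplex.cell (Set.univ : Set E) n), RelCWComplex.openCell n j) := by
    rw [h]; trivial
  simp only [mem_iUnion] at hx
  obtain ⟨n, j, y, hy, he⟩ := hx
  exact ⟨n, j, y, hy, he⟩

theorem skel_iff (n : ℕ∞) (x : E) :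
    x ∈ (RelCWComplex.skeletonLT (Set.univ : Set E) n : Set E) ↔
    ∃ m : ℕ, (m : ℕ∞) < n ∧ ∃ (j : cw.cell m) (y : Fin m → ℝ), y ∈ ball (0 : Fin m → ℝ) 1 ∧
      cw.map m j y = x := by
  rw [SetLike.mem_coe, CWComplex.mem_skeletonLT_iff]
  constructor
  · rintro ⟨m, hm, j, y, hy, he⟩
    exact ⟨m, hm, j, y, hy, he⟩
  · rintro ⟨m, hm, j, y, hy, he⟩
    exact ⟨m, hm, j, y, hy, he⟩

theorem closed_skel (n : ℕ) (i : cw.cell n) {y : Fin n → ℝ}
    (hy : y ∈ closedBall (0 : Fin n → ℝ) 1) :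
    cw.map n i y ∈ (RelCWComplex.skeletonLT (Set.univ : Set E) ((n + 1 : ℕ) : ℕ∞) : Set E) := by
  let _ := cw
  have := RelCWComplex.closedCell_subset_skeletonLT (C := (Set.univ : Set E)) n i
  push_cast
  exact this ⟨y, hy, rfl⟩

theorem sphere_skel (n : ℕ) (i : cw.cell n) {y : Fin n → ℝ}
    (hy : y ∈ sphere (0 : Fin n → ℝ) 1) :
    cw.map n i y ∈ (RelCWComplex.skeletonLT (Set.univ : Set E) (n : ℕ∞) : Set E) := by
  let _ := cw
  have := RelCWComplex.cellFrontier_subset_skeletonLT (C := (Set.univ : Set E)) n i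
  exact this ⟨y, hy, rfl⟩

omit [T2Space E] in
theorem map_inj {n m : ℕ} {i : cw.cell n} {j : cw.cell m} {x : Fin n → ℝ} {y : Fin m → ℝ}
    (hx : x ∈ ball (0 : Fin n → ℝ) 1) (hy : y ∈ ball (0 : Fin m → ℝ) 1)
    (h : cw.map n i x = cw.map m j y) :
    (⟨⟨n, i⟩, x⟩ : Σ p : (Σ n, cw.cell n), (Fin p.1 → ℝ)) = ⟨⟨m, j⟩, y⟩ := by
  let _ := cw
  have h1 : (⟨n, i⟩ : Σ n, cw.cell n) = ⟨m, j⟩ := by
    by_contra hne
    have := RelCWComplex.disjoint_openCell_of_ne (C := (Set.univ : Set E)) (i := i) (j := j) hne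
    rw [Set.disjoint_left] at this
    exact this ⟨x, hx, rfl⟩ ⟨y, hy, h.symm⟩
  cases h1
  have h2 : x = y := by
    have hs := cw.source_eq n i
    exact (cw.map n i).injOn (by rw [hs]; exact hx) (by rw [hs]; exact hy) h
  rw [h2]

end Facts

end Pool.Agent.W749.SC
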