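import Pool.Agent.W622.SC.Stmts
import Pool.Agent.W749.SC.Build

/-! The circle as a finite CW complex. -/

set_option autoImplicit false

open Set Filter Topology Metric unitInterval ContinuousMap

namespace Pool.Agent.W749.SC

open Pool.Agent.W622.SC

/-- cells of the circle -/
def ccell : ℕ → Type
  | 0 => Unit
  | 1 => Unit
  | _ + 2 => Empty

/-- characteristic maps of the circle -/
noncomputable def cF : ∀ n, ccell n → (Fin n → ℝ) → Cir
  | 0 => fun _ _ => 0
  | 1 => fun _ x => (((x 0 + 1) / 2 : ℝ) : AddCircle (1 : ℝ))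
  | _ + 2 => fun e => Empty.elim e

theorem coe_inj' {s t : ℝ} (hs : s ∈ Ico (0 : ℝ) 1) (ht : t ∈ Ico (0 : ℝ) 1)
    (h : ((s : ℝ) : AddCircle (1 : ℝ)) = t) : s = t :=
  (AddCircle.coe_eq_coe_iff_of_mem_Ico (p := (1 : ℝ)) (a := 0)
    (x := s) (y := t) (by rwa [zero_add]) (by rwa [zero_add])).mp h

theorem ball1 {x : Fin 1 → ℝ} : x ∈ ball (0 : Fin 1 → ℝ) 1 ↔ |x 0| < 1 := by
  rw [mem_ball_zero_iff, pi_norm_lt_iff one_pos, Fin.forall_fin_one]
  rfl

theorem cball1 {x : Fin 1 → ℝ} : x ∈ closedBall (0 : Fin 1 → ℝ) 1 ↔ |x 0| ≤ 1 := by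
  rw [mem_closedBall_zero_iff, pi_norm_le_iff_of_nonneg zero_le_one, Fin.forall_fin_one]
  rfl

/-- the data -/
noncomputable def cDat : Dat Cir where
  cell := ccell
  F := cF
  top := by
    rw [eventually_atTop]
    refine ⟨2, fun n hn => ?_⟩
    obtain ⟨m, rfl⟩ : ∃ m, n = m + 2 := ⟨n - 2, by omega⟩
    exact inferInstanceAs (IsEmpty Empty)
  fin n := by
    match n with
    | 0 => exact inferInstanceAs (Finite Unit)
    | 1 => exact inferInstanceAs (Finite Unit)
    | n + 2 => exact inferInstanceAs (Finite Empty)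
  cont n i := by
    match n, i with
    | 0, _ => exact continuousOn_const
    | 1, _ =>
      exact ((AddCircle.continuous_mk' 1).comp (by fun_prop)).continuousOn
    | n + 2, e => exact Empty.elim e
  inj n i m j x y hx hy h := by
    match n, i, m, j with
    | 0, (), 0, () =>
      rw [Subsingleton.elim x y]
    | 0, (), 1, () =>
      rw [ball1, abs_lt] at hy
      have h' : (((0 : ℝ) : ℝ) : AddCircle (1 : ℝ)) = (((y 0 + 1) / 2 : ℝ) : AddCircle (1 : ℝ)) := h
      have := coe_inj' ⟨le_rfl, one_pos⟩ ⟨by linarith, by linarith⟩ h'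
      linarith
    | 1, (), 0, () =>
      rw [ball1, abs_lt] at hx
      have h' : (((x 0 + 1) / 2 : ℝ) : AddCircle (1 : ℝ)) = (((0 : ℝ) : ℝ) : AddCircle (1 : ℝ)) := h
      have := coe_inj' ⟨by linarith, by linarith⟩ ⟨le_rfl, one_pos⟩ h'
      linarith
    | 1, (), 1, () =>
      rw [ball1, abs_lt] at hx hy
      have := coe_inj' ⟨by linarith, by linarith⟩ ⟨by linarith, by linarith⟩ h
      have h2 : x = y := by
        funext i
        rw [Subsingleton.elim i 0]
        linarith
      rw [h2]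
    | n + 2, e, _, _ => exact Empty.elim e
    | _, _, m + 2, e => exact Empty.elim e
  bd n i x hx := by
    match n, i with
    | 0, _ =>
      rw [mem_sphere, Subsingleton.elim x 0, dist_self] at hx
      norm_num at hx
    | 1, () =>
      refine ⟨0, one_pos, (), 0, mem_ball_self one_pos, ?_⟩
      have h1 : |x 0| = 1 := by
        apply le_antisymm
        · exact cball1.1 (sphere_subset_closedBall hx)
        · by_contra hcon
          have := ball1.2 (not_le.1 hcon)
          rw [mem_ball] at this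
          rw [mem_sphere] at hx
          linarith
      show (((x 0 + 1) / 2 : ℝ) : AddCircle (1 : ℝ)) = 0
      rcases (abs_eq zero_le_one).1 h1 with h | h
      · rw [h]
        have := AddCircle.coe_period (1 : ℝ)
        norm_num
      · rw [h]
        norm_num
    | n + 2, e => exact Empty.elim e
  surj z := by
    obtain ⟨t, ht, rfl⟩ : ∃ t ∈ Ico (0 : ℝ) 1, ((t : ℝ) : AddCircle (1 : ℝ)) = z := by
      have h := AddCircle.coe_image_Ico_eq (1 : ℝ) 0
      have hz : z ∈ ((↑) : ℝ → AddCircle (1 : ℝ)) '' Ico 0 (0 + 1) := by rw [h]; trivial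
      rw [zero_add] at hz
      exact hz
    by_cases ht0 : t = 0
    · subst ht0
      exact ⟨0, (), 0, mem_ball_self one_pos, rfl⟩
    · have ht1 : 0 < t := lt_of_le_of_ne ht.1 (Ne.symm ht0)
      refine ⟨1, (), fun _ => 2 * t - 1, ?_, ?_⟩
      · rw [ball1, abs_lt]
        constructor <;> linarith [ht.2]
      · show (((2 * t - 1 + 1) / 2 : ℝ) : AddCircle (1 : ℝ)) = _
        congr 1
        ring

theorem cwCir : S_cwCir := by
  refine ⟨cDat.cw, cDat.finite, ?_, ?_⟩
  · intro n x hx
    rw [skel_iff cDat.cw] at hx ⊢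
    obtain ⟨m, hm, j, y, hy, he⟩ := hx
    have hm' : m < n := by exact_mod_cast hm
    by_cases hn : n = 1
    · subst hn
      have hm0 : m = 0 := by omega
      subst hm0
      refine ⟨0, by exact_mod_cast one_pos, j, y, hy, ?_⟩
      have hx0 : x = 0 := he.symm
      rw [hx0, dbl_apply, add_zero]
      rfl
    · obtain ⟨k, i, w, hw, hwe⟩ := cDat.surj (dbl x)
      have hk : k < 2 := by
        by_contra hcon
        obtain ⟨l, rfl⟩ : ∃ l, k = l + 2 := ⟨k - 2, by omega⟩
        exact Empty.elim i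
      have hkn : k < n := by omega
      exact ⟨k, by exact_mod_cast hkn, i, w, hw, hwe⟩
  · intro n hn
    obtain ⟨m, rfl⟩ : ∃ m, n = m + 2 := ⟨n - 2, by omega⟩
    exact inferInstanceAs (IsEmpty Empty)

end Pool.Agent.W749.SC
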