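import Pool.Agent.W622.SC.Stmts
import Pool.Agent.W749.SC.Build

/-! The mapping torus of a cellular self-map of a finite CW complex is a finite CW complex. -/

set_option autoImplicit false

open Set Filter Topology Metric unitInterval ContinuousMap

namespace Pool.Agent.W749.SC

open Pool.Agent.W622.SC

section T2

variable {E : Type} [TopologicalSpace E] (f : C(E, E))

theorem mtnf_lt {x : E} {u : I} (hu : (u : ℝ) < 1) : MTnf f (x, u) = (x, u) := by
  unfold MTnf
  rw [if_neg]
  intro h
  have : (u : ℝ) = 1 := congrArg Subtype.val h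
  linarith

theorem mt_rep (z : MT f) : ∃ (x : E) (u : I), (u : ℝ) < 1 ∧ z = MT.mk f (x, u) := by
  refine MT.ind (f := f) (p := fun z => ∃ (x : E) (u : I), (u : ℝ) < 1 ∧ z = MT.mk f (x, u)) ?_ z
  intro x u
  by_cases hu : u = 1
  · subst hu
    exact ⟨f x, 0, by simp, MT.glue f x⟩
  · refine ⟨x, u, lt_of_le_of_ne u.2.2 ?_, rfl⟩
    intro h
    exact hu (Subtype.ext h)

theorem mk_inj {x y : E} {u v : I} (hu : (u : ℝ) < 1) (hv : (v : ℝ) < 1)
    (h : MT.mk f (x, u) = MT.mk f (y, v)) : x = y ∧ u = v := by
  have h1 := MT.mk_eq_iff.mp h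
  rw [mtnf_lt f hu, mtnf_lt f hv] at h1
  exact Prod.ext_iff.mp h1

theorem open_img {S : Set (E × I)} (hS : IsOpen S) (hsat : ∀ p, p ∈ S ↔ MTnf f p ∈ S) :
    IsOpen (MT.mk f '' S) ∧ MT.mk f ⁻¹' (MT.mk f '' S) = S := by
  have h : MT.mk f ⁻¹' (MT.mk f '' S) = S := by
    ext p
    constructor
    · rintro ⟨q, hq, hqp⟩
      rw [hsat, ← MT.mk_eq_iff.mp hqp, ← hsat]
      exact hq
    · intro hp
      exact ⟨p, hp, rfl⟩
  refine ⟨?_, h⟩
  rw [← (MT.isQuotientMap f).isOpen_preimage, h]
  exact hS

theorem mt_t2 [T2Space E] : T2Space (MT f) := by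
  refine ⟨fun z w hne => ?_⟩
  obtain ⟨x, u, hu, rfl⟩ := mt_rep f z
  obtain ⟨y, v, hv, rfl⟩ := mt_rep f w
  by_cases huv : u = v
  · subst huv
    have hxy : x ≠ y := by rintro rfl; exact hne rfl
    obtain ⟨U, V, hU, hV, hxU, hyV, hd⟩ := t2_separation hxy
    by_cases hu0 : u = 0
    · subst hu0
      have key : ∀ U : Set E, IsOpen U → IsOpen {p : E × I | ((p.2 : ℝ) < 1 / 2 ∧ p.1 ∈ U) ∨
          (1 / 2 < (p.2 : ℝ) ∧ f p.1 ∈ U)} ∧ ∀ p, p ∈ {p : E × I | ((p.2 : ℝ) < 1 / 2 ∧ p.1 ∈ U) ∨
          (1 / 2 < (p.2 : ℝ) ∧ f p.1 ∈ U)} ↔ MTnf f p ∈ {p : E × I | ((p.2 : ℝ) < 1 / 2 ∧ p.1 ∈ U) ∨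
          (1 / 2 < (p.2 : ℝ) ∧ f p.1 ∈ U)} := by
        intro U hU
        constructor
        · apply IsOpen.union
          · exact (isOpen_lt (continuous_subtype_val.comp continuous_snd) continuous_const).inter (hU.preimage continuous_fst)
          · exact (isOpen_lt continuous_const (continuous_subtype_val.comp continuous_snd)).inter
              (hU.preimage (f.continuous.comp continuous_fst))
        · rintro ⟨p, t⟩
          unfold MTnf
          split_ifs with h
          · simp only at h
            subst h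
            simp only [mem_ofPred_eq, Icc.coe_one, Icc.coe_zero]
            constructor
            · rintro (⟨h1, -⟩ | ⟨-, h2⟩)
              · norm_num at h1
              · exact Or.inl ⟨by norm_num, h2⟩
            · rintro (⟨-, h2⟩ | ⟨h1, -⟩)
              · exact Or.inr ⟨by norm_num, h2⟩
              · norm_num at h1
          · rfl
      obtain ⟨hUo, hUs⟩ := key U hU
      obtain ⟨hVo, hVs⟩ := key V hV
      obtain ⟨o1, p1⟩ := open_img f hUo hUs
      obtain ⟨o2, p2⟩ := open_img f hVo hVs
      refine ⟨_, _, o1, o2, ⟨(x, 0), Or.inl ⟨by simp, hxU⟩, rfl⟩,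
        ⟨(y, 0), Or.inl ⟨by simp, hyV⟩, rfl⟩, ?_⟩
      rw [Set.disjoint_left]
      rintro _ ⟨p, hp, rfl⟩ hq
      have hq' : p ∈ MT.mk f ⁻¹' (MT.mk f '' _) := hq
      rw [p2] at hq'
      rw [Set.disjoint_left] at hd
      rcases hp with ⟨h1, h2⟩ | ⟨h1, h2⟩ <;> rcases hq' with ⟨h3, h4⟩ | ⟨h3, h4⟩
      · exact hd h2 h4
      · linarith
      · linarith
      · exact hd h2 h4
    · have hu0' : 0 < (u : ℝ) := lt_of_le_of_ne u.2.1 fun h => hu0 (Subtype.ext h.symm)
      have key : ∀ U : Set E, IsOpen U → IsOpen {p : E × I | (0 < (p.2 : ℝ) ∧ (p.2 : ℝ) < 1) ∧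
          p.1 ∈ U} ∧ ∀ p, p ∈ {p : E × I | (0 < (p.2 : ℝ) ∧ (p.2 : ℝ) < 1) ∧ p.1 ∈ U} ↔
          MTnf f p ∈ {p : E × I | (0 < (p.2 : ℝ) ∧ (p.2 : ℝ) < 1) ∧ p.1 ∈ U} := by
        intro U hU
        constructor
        · exact ((isOpen_lt continuous_const (continuous_subtype_val.comp continuous_snd)).inter
            (isOpen_lt (continuous_subtype_val.comp continuous_snd) continuous_const)).inter (hU.preimage continuous_fst)
        · rintro ⟨p, t⟩
          unfold MTnf
          split_ifs with h
          · simp only at h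
            subst h
            simp
          · rfl
      obtain ⟨hUo, hUs⟩ := key U hU
      obtain ⟨hVo, hVs⟩ := key V hV
      obtain ⟨o1, p1⟩ := open_img f hUo hUs
      obtain ⟨o2, p2⟩ := open_img f hVo hVs
      refine ⟨_, _, o1, o2, ⟨(x, u), ⟨⟨hu0', hu⟩, hxU⟩, rfl⟩,
        ⟨(y, u), ⟨⟨hu0', hu⟩, hyV⟩, rfl⟩, ?_⟩
      rw [Set.disjoint_left]
      rintro _ ⟨p, hp, rfl⟩ hq
      have hq' : p ∈ MT.mk f ⁻¹' (MT.mk f '' _) := hq
      rw [p2] at hq'
      rw [Set.disjoint_left] at hd
      exact hd hp.2 hq'.2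
  · have hht : MT.ht f (MT.mk f (x, u)) ≠ MT.ht f (MT.mk f (y, v)) := by
      rw [MT.ht_mk, MT.ht_mk]
      intro h
      apply huv
      have h2 := (AddCircle.coe_eq_coe_iff_of_mem_Ico (p := (1 : ℝ)) (a := 0)
        (x := (u : ℝ)) (y := (v : ℝ)) (by rw [zero_add]; exact ⟨u.2.1, hu⟩)
        (by rw [zero_add]; exact ⟨v.2.1, hv⟩)).mp h
      exact Subtype.ext h2
    exact separated_by_continuous (MT.ht f).continuous hht

end T2

section Ball

variable {n : ℕ}

theorem mem_ball_succ (y : Fin (n + 1) → ℝ) : y ∈ ball (0 : Fin (n + 1) → ℝ) 1 ↔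
    Fin.init y ∈ ball (0 : Fin n → ℝ) 1 ∧ |y (Fin.last n)| < 1 := by
  rw [mem_ball_zero_iff, mem_ball_zero_iff, pi_norm_lt_iff one_pos, pi_norm_lt_iff one_pos,
    Fin.forall_fin_succ']
  rfl

theorem mem_cball_succ (y : Fin (n + 1) → ℝ) : y ∈ closedBall (0 : Fin (n + 1) → ℝ) 1 ↔
    Fin.init y ∈ closedBall (0 : Fin n → ℝ) 1 ∧ |y (Fin.last n)| ≤ 1 := by
  rw [mem_closedBall_zero_iff, mem_closedBall_zero_iff, pi_norm_le_iff_of_nonneg zero_le_one,
    pi_norm_le_iff_of_nonneg zero_le_one, Fin.forall_fin_succ']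
  rfl

end Ball

section CW

variable {E : Type} [TopologicalSpace E] (cw : CWComplex (Set.univ : Set E)) (f : C(E, E))

/-- the cells of the prisms -/
def pc : ℕ → Type
  | 0 => Empty
  | n + 1 => cw.cell n

/-- the height coordinate of a prism -/
noncomputable def hgt (t : ℝ) : I := projIcc 0 1 zero_le_one ((t + 1) / 2)

theorem hgt_cont : Continuous hgt := continuous_projIcc.comp (by fun_prop)

theorem hgt_coe {t : ℝ} (ht : |t| ≤ 1) : (hgt t : ℝ) = (t + 1) / 2 := by
  unfold hgt
  rw [projIcc_of_mem zero_le_one (by rw [abs_le] at ht; constructor <;> linarith)]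

/-- characteristic maps of the prisms -/
noncomputable def mtG : ∀ n, pc cw n → (Fin n → ℝ) → MT f
  | 0 => fun e => Empty.elim e
  | n + 1 => fun e y => MT.mk f (cw.map n e (Fin.init y), hgt (y (Fin.last n)))

/-- characteristic maps -/
noncomputable def mtF (n : ℕ) (e : cw.cell n ⊕ pc cw n) (x : Fin n → ℝ) : MT f :=
  Sum.elim (fun e => MT.mk f (cw.map n e x, 0)) (fun e => mtG cw f n e x) e

theorem mtF_inl (n : ℕ) (e : cw.cell n) (x : Fin n → ℝ) :
    mtF cw f n (.inl e) x = MT.mk f (cw.map n e x, 0) := rfl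

theorem mtF_inr (n : ℕ) (e : pc cw (n + 1)) (y : Fin (n + 1) → ℝ) :
    mtF cw f (n + 1) (.inr e) y = MT.mk f (cw.map n e (Fin.init y), hgt (y (Fin.last n))) := rfl

/-- the data -/
noncomputable def mtDat [T2Space E] (hfin : RelCWComplex.Finite (Set.univ : Set E))
    (hf : Cellular cw f) : Dat (MT f) where
  cell n := cw.cell n ⊕ pc cw n
  F := mtF cw f
  top := by
    obtain ⟨N, hN⟩ := eventually_atTop.1 hfin.eventually_isEmpty_cell
    rw [eventually_atTop]
    refine ⟨N + 1, fun n hn => ?_⟩
    obtain ⟨m, rfl⟩ : ∃ m, n = m + 1 := ⟨n - 1, by omega⟩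
    have h1 : IsEmpty (cw.cell (m + 1)) := hN (m + 1) (by omega)
    have h2 : IsEmpty (pc cw (m + 1)) := hN m (by omega)
    infer_instance
  fin n := by
    have h1 : Finite (cw.cell n) := hfin.finite_cell n
    have h2 : Finite (pc cw n) := by
      cases n with
      | zero => exact inferInstanceAs (Finite Empty)
      | succ n => exact hfin.finite_cell n
    infer_instance
  cont n i := by
    rcases i with e | e
    · have h1 := cw.continuousOn n e
      exact (MT.mk f).continuous.comp_continuousOn (h1.prodMk continuousOn_const)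
    · cases n with
      | zero => exact Empty.elim e
      | succ n =>
        have h1 := cw.continuousOn n e
        have h2 : Continuous fun y : Fin (n + 1) → ℝ => (Fin.init y : Fin n → ℝ) := by
          apply continuous_pi
          intro i
          exact continuous_apply _
        refine (MT.mk f).continuous.comp_continuousOn (ContinuousOn.prodMk ?_ ?_)
        · exact h1.comp h2.continuousOn fun y hy => ((mem_cball_succ y).1 hy).1
        · exact (hgt_cont.comp (continuous_apply _)).continuousOn
  inj n i m j x y hx hy h := by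
    rcases i with e | e <;> rcases j with e' | e'
    · rw [mtF_inl, mtF_inl] at h
      have h1 := (mk_inj f (by simp) (by simp) h).1
      have h2 := map_inj cw hx hy h1
      cases h2
      rfl
    · cases m with
      | zero => exact Empty.elim e'
      | succ m =>
        rw [mtF_inl, mtF_inr] at h
        rw [mem_ball_succ] at hy
        have hc := hgt_coe hy.2.le
        rw [abs_lt] at hy
        have h1 := (mk_inj f (by simp) (by rw [hc]; linarith) h).2
        have h2 := congrArg Subtype.val h1
        rw [hc] at h2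
        simp only [Icc.coe_zero] at h2
        linarith
    · cases n with
      | zero => exact Empty.elim e
      | succ n =>
        rw [mtF_inl, mtF_inr] at h
        rw [mem_ball_succ] at hx
        have hc := hgt_coe hx.2.le
        rw [abs_lt] at hx
        have h1 := (mk_inj f (by rw [hc]; linarith) (by simp) h).2
        have h2 := congrArg Subtype.val h1
        rw [hc] at h2
        simp only [Icc.coe_zero] at h2
        linarith
    · cases n with
      | zero => exact Empty.elim e
      | succ n =>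
        cases m with
        | zero => exact Empty.elim e'
        | succ m =>
          rw [mtF_inr, mtF_inr] at h
          rw [mem_ball_succ] at hx hy
          have hc := hgt_coe hx.2.le
          have hc' := hgt_coe hy.2.le
          obtain ⟨h1, h2⟩ := mk_inj f (by rw [hc]; linarith [(abs_lt.1 hx.2).2])
            (by rw [hc']; linarith [(abs_lt.1 hy.2).2]) h
          have h3 := congrArg Subtype.val h2
          rw [hc, hc'] at h3
          have h4 : x (Fin.last n) = y (Fin.last m) := by linarith
          have h5 := map_inj cw hx.1 hy.1 h1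
          have h6 : ∃ (hnm : n = m), hnm ▸ e = e' ∧ ∀ i : Fin n, x i.castSucc =
              y ((finCongr hnm i).castSucc) := by
            obtain ⟨h7, h8⟩ := Sigma.mk.inj_iff.1 h5
            obtain ⟨h9, h10⟩ := Sigma.mk.inj_iff.1 h7
            subst h9
            have h11 : e = e' := eq_of_heq h10
            subst h11
            rw [heq_eq_eq] at h8
            exact ⟨rfl, rfl, fun i => congrFun h8 i⟩
          obtain ⟨hnm, h7, h8⟩ := h6
          subst hnm
          simp only at h7
          subst h7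
          have h9 : x = y := by
            funext i
            refine Fin.lastCases ?_ (fun i => ?_) i
            · exact h4
            · exact h8 i
          rw [h9]
  bd n i x hx := by
    have hxc : x ∈ closedBall (0 : Fin n → ℝ) 1 := sphere_subset_closedBall hx
    rcases i with e | e
    · have h1 := sphere_skel cw n e hx
      rw [skel_iff cw] at h1
      obtain ⟨m, hm, j, y, hy, he⟩ := h1
      refine ⟨m, by exact_mod_cast hm, Sum.inl j, y, hy, ?_⟩
      rw [mtF_inl, mtF_inl, he]
    · cases n with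
      | zero => exact Empty.elim e
      | succ n =>
        rw [mtF_inr]
        obtain ⟨h1, h2⟩ := (mem_cball_succ x).1 hxc
        have hc := hgt_coe h2
        have hcl := closed_skel cw n e h1
        by_cases h3 : x (Fin.last n) = -1
        · have h4 : hgt (x (Fin.last n)) = 0 := by
            apply Subtype.ext
            rw [hc, h3]
            norm_num
          rw [skel_iff cw] at hcl
          obtain ⟨m, hm, j, y, hy, he⟩ := hcl
          refine ⟨m, by exact_mod_cast hm, Sum.inl j, y, hy, ?_⟩
          rw [mtF_inl, he, h4]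
        by_cases h3' : x (Fin.last n) = 1
        · have h4 : hgt (x (Fin.last n)) = 1 := by
            apply Subtype.ext
            rw [hc, h3']
            norm_num
          have hcl' := hf (n + 1) _ hcl
          rw [skel_iff cw] at hcl'
          obtain ⟨m, hm, j, y, hy, he⟩ := hcl'
          refine ⟨m, by exact_mod_cast hm, Sum.inl j, y, hy, ?_⟩
          rw [mtF_inl, he, h4, MT.glue]
        have h5 : |x (Fin.last n)| < 1 := by
          rw [abs_le] at h2
          rw [abs_lt]
          exact ⟨lt_of_le_of_ne h2.1 (Ne.symm h3), lt_of_le_of_ne h2.2 h3'⟩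
        have h6 : Fin.init x ∈ sphere (0 : Fin n → ℝ) 1 := by
          by_contra hcon
          have h7 : Fin.init x ∈ ball (0 : Fin n → ℝ) 1 := by
            rw [mem_closedBall] at h1
            rw [mem_sphere] at hcon
            exact lt_of_le_of_ne h1 hcon
          have h8 := (mem_ball_succ x).2 ⟨h7, h5⟩
          rw [mem_ball] at h8
          rw [mem_sphere] at hx
          linarith
        have h7 := sphere_skel cw n e h6
        rw [skel_iff cw] at h7
        obtain ⟨m, hm, j, y, hy, he⟩ := h7
        have hm' : m < n := by exact_mod_cast hm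
        refine ⟨m + 1, by omega, Sum.inr j, Fin.snoc y (x (Fin.last n)), ?_, ?_⟩
        · rw [mem_ball_succ, Fin.init_snoc, Fin.snoc_last]
          exact ⟨hy, h5⟩
        · have e1 := mtF_inr cw f m j (Fin.snoc y (x (Fin.last n)))
          rw [Fin.init_snoc, Fin.snoc_last, he] at e1
          exact e1.symm
  surj z := by
    obtain ⟨x, u, hu, rfl⟩ := mt_rep f z
    obtain ⟨n, e, y, hy, he⟩ := ex_cell cw x
    by_cases hu0 : u = 0
    · subst hu0
      exact ⟨n, Sum.inl e, y, hy, by rw [mtF_inl, he]⟩
    · have hu0' : 0 < (u : ℝ) := lt_of_le_of_ne u.2.1 fun h => hu0 (Subtype.ext h.symm)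
      have hab : |2 * (u : ℝ) - 1| < 1 := by rw [abs_lt]; constructor <;> linarith
      refine ⟨n + 1, Sum.inr e, Fin.snoc y (2 * (u : ℝ) - 1), ?_, ?_⟩
      · rw [mem_ball_succ, Fin.init_snoc, Fin.snoc_last]
        exact ⟨hy, hab⟩
      · have e1 := mtF_inr cw f n e (Fin.snoc y (2 * (u : ℝ) - 1))
        rw [Fin.init_snoc, Fin.snoc_last, he] at e1
        have e2 : hgt (2 * (u : ℝ) - 1) = u := by
          apply Subtype.ext
          rw [hgt_coe hab.le]
          ring
        rw [e2] at e1
        exact e1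

end CW

theorem cwMT : S_cwMT := by
  intro E _ _ cw hfin f hf
  have hT2 : T2Space (MT f) := mt_t2 f
  refine ⟨hT2, (mtDat cw f hfin hf).cw, (mtDat cw f hfin hf).finite, ?_⟩
  intro m hm n hn
  obtain ⟨k, rfl⟩ : ∃ k, n = k + 1 := ⟨n - 1, by omega⟩
  have h1 : IsEmpty (cw.cell (k + 1)) := hm (k + 1) (by omega)
  have h2 : IsEmpty (pc cw (k + 1)) := hm k (by omega)
  show IsEmpty (cw.cell (k + 1) ⊕ pc cw (k + 1))
  infer_instance

end Pool.Agent.W749.SC
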